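import Pool.Agent.Q253.Host.Main

/-!
# MP_3998cf_nt: one thin set of multipliers for all intervals of length `x ^ (1 / 2 - δ)`
-/

set_option autoImplicit false

namespace Pool.Agent.Results.MP_3998cf_nt.OneThinSetOfMultipliers

open Finset Filter
open Pool.Agent.Q253.Host (Good)

/-- The primes, and the numbers `n = m p` with `m ∈ M`, `m ≤ n ^ (1 / 2 - 2 δ)`, `p` prime, all of whose prime factors are at
least `n ^ (2 δ)`. -/
def E (δ : ℝ) (M : Set ℕ) : Set ℕ :=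
  {n | n.Prime ∨ ∃ m ∈ M, ∃ p : ℕ, p.Prime ∧ n = m * p ∧ (m : ℝ) ≤ (n : ℝ) ^ (1 / 2 - 2 * δ) ∧
    ∀ q : ℕ, q.Prime → q ∣ n → (n : ℝ) ^ (2 * δ) ≤ q}

theorem result : ∃ δ C : ℝ, 0 < δ ∧ 0 < C ∧ ∃ M : Set ℕ,
    (∀ m ∈ M, 2 ≤ m ∧ Squarefree m ∧ ∀ p : ℕ, p.Prime → p ∣ m → (m : ℝ) ^ δ ≤ p) ∧
    (∀ y : ℝ, 2 ≤ y → {m ∈ M | (m : ℝ) ≤ y}.Finite ∧ ({m ∈ M | (m : ℝ) ≤ y}.ncard : ℝ) ≤ C * Real.log y) ∧
    (∃ x₀ : ℝ, ∀ x H : ℝ, x₀ ≤ x → x ^ (1 / 2 - δ) ≤ H → H ≤ x →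
      δ * Real.log x ≤ ({m ∈ M | Good δ x H m}.ncard : ℝ)) ∧
    (∀ X : ℝ, 1 ≤ X → {n ∈ E δ M | ¬ n.Prime ∧ (n : ℝ) ≤ X}.Finite ∧
      ({n ∈ E δ M | ¬ n.Prime ∧ (n : ℝ) ≤ X}.ncard : ℝ) ≤ C * X ^ (1 - δ)) ∧
    (∃ N : ℕ, ∀ n : ℕ, N ≤ n → ∃ b ∈ E δ M, n < b ∧ Real.sqrt b - Real.sqrt n < (n : ℝ) ^ (-δ)) := by
  obtain ⟨δ₀, C₀, hδ₀, hδ16, hC₀, M, hM1, hM2, x₀, hx₀, hM3⟩ := Pool.Agent.Q253.Host.main
  obtain ⟨δ, hδ⟩ : ∃ δ : ℝ, δ = δ₀ / 2 := ⟨_, rfl⟩
  have hd0 : 0 < δ := by rw [hδ]; positivity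
  have hdd : δ ≤ δ₀ := by rw [hδ]; linarith
  have hd1 : δ ≤ 1 / 32 := by rw [hδ]; linarith
  refine ⟨δ, 1 + C₀ + 2 * C₀ / δ, hd0, by positivity, M, ?_, ?_, ⟨x₀, ?_⟩, ?_, ?_⟩
  · intro m hm
    obtain ⟨h1, h2, h3⟩ := hM1 m hm
    refine ⟨h1, h2, fun p hp hpm => le_trans ?_ (h3 p hp hpm)⟩
    exact Real.rpow_le_rpow_of_exponent_le (by exact_mod_cast (by omega : 1 ≤ m)) hdd
  · intro y hy
    obtain ⟨h1, h2⟩ := hM2 y hy
    refine ⟨h1, h2.trans ?_⟩
    apply mul_le_mul_of_nonneg_right _ (Real.log_nonneg (by linarith))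
    have : 0 ≤ 2 * C₀ / δ := by positivity
    linarith
  · intro x H hx hH hHx
    have hx1 : 1 ≤ x := by linarith
    have hx0 : 0 < x := by linarith
    have hH0 : 0 < H := lt_of_lt_of_le (by positivity) hH
    have hlx : 0 ≤ Real.log x := Real.log_nonneg hx1
    have h1 := hM3 x H hx ((Real.rpow_le_rpow_of_exponent_le hx1 (by linarith)).trans hH) hHx
    have hsub : {m ∈ M | Good δ₀ x H m} ⊆ {m ∈ M | Good δ x H m} := by
      rintro m ⟨hm, g1, g2, g3⟩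
      refine ⟨hm, g1.trans (Real.rpow_le_rpow_of_exponent_le hx1 (by linarith)), fun p hp hpm => ?_, ?_⟩
      · exact (Real.rpow_le_rpow_of_exponent_le hx1 (by linarith)).trans (g2 p hp hpm)
      · refine le_trans ?_ g3
        apply div_le_div_of_nonneg_right _ hlx
        exact mul_le_mul_of_nonneg_right hdd (by positivity)
    have hfin : {m ∈ M | Good δ x H m}.Finite := by
      apply (hM2 x (by linarith)).1.subset
      rintro m ⟨hm, g1, _⟩
      refine ⟨hm, g1.trans ?_⟩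
      calc x ^ (1 / 2 - 2 * δ) ≤ x ^ (1 : ℝ) := Real.rpow_le_rpow_of_exponent_le hx1 (by linarith)
        _ = x := Real.rpow_one x
    have h2 : ({m ∈ M | Good δ₀ x H m}.ncard : ℝ) ≤ ({m ∈ M | Good δ x H m}.ncard : ℝ) := by
      exact_mod_cast Set.ncard_le_ncard hsub hfin
    have h3 : δ * Real.log x ≤ δ₀ * Real.log x := mul_le_mul_of_nonneg_right hdd hlx
    linarith
  · -- the number of the other elements
    intro X hX
    have hX0 : 0 < X := by linarith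
    by_cases hX2 : X < 2
    · have hemp : {n ∈ E δ M | ¬ n.Prime ∧ (n : ℝ) ≤ X} = ∅ := by
        rw [Set.eq_empty_iff_forall_notMem]
        rintro n ⟨hn, hnp, hnX⟩
        rcases hn with hn | ⟨m, hm, p, hp, hnmp, _⟩
        · exact hnp hn
        · have h1 := (hM1 m hm).1
          have h2 := hp.two_le
          have h3 : 4 ≤ n := by rw [hnmp]; nlinarith
          have h4 : (4 : ℝ) ≤ n := by exact_mod_cast h3
          linarith
      rw [hemp]
      refine ⟨Set.finite_empty, ?_⟩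
      rw [Set.ncard_empty, Nat.cast_zero]
      positivity
    push Not at hX2
    obtain ⟨hfin, hcard⟩ := hM2 X hX2
    obtain ⟨Mf, hMf⟩ : ∃ Mf : Finset ℕ, Mf = hfin.toFinset := ⟨_, rfl⟩
    have hMfc : (Mf.card : ℝ) ≤ C₀ * Real.log X := by
      rw [hMf, ← Set.ncard_eq_toFinset_card _ hfin]
      exact hcard
    have hsub : {n ∈ E δ M | ¬ n.Prime ∧ (n : ℝ) ≤ X} ⊆
        ((Icc 1 ⌊X ^ (3 / 4 : ℝ)⌋₊ ∪ (Mf ×ˢ Icc 1 ⌊X ^ (1 - 3 / 2 * δ)⌋₊).image (fun u => u.1 * u.2) : Finset ℕ) : Set ℕ) := by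
      rintro n ⟨hn, hnp, hnX⟩
      rcases hn with hn | ⟨m, hm, p, hp, hnmp, hmn, hq⟩
      · exact absurd hn hnp
      obtain ⟨hm2, _, _⟩ := hM1 m hm
      have hn1 : 1 ≤ n := by
        rw [hnmp]
        exact Nat.mul_pos (by omega) hp.pos
      rw [mem_coe, mem_union]
      by_cases hc : (n : ℝ) ≤ X ^ (3 / 4 : ℝ)
      · left
        rw [mem_Icc]
        exact ⟨hn1, Nat.le_floor hc⟩
      · right
        push Not at hc
        rw [mem_image]
        have hmn' : m ≤ n := by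
          rw [hnmp]
          exact Nat.le_mul_of_pos_right m hp.pos
        have hmX : (m : ℝ) ≤ X := le_trans (by exact_mod_cast hmn') hnX
        refine ⟨(m, p), mem_product.2 ⟨?_, ?_⟩, hnmp.symm⟩
        · rw [hMf, Set.Finite.mem_toFinset]
          exact ⟨hm, hmX⟩
        · rw [mem_Icc]
          refine ⟨hp.one_le, Nat.le_floor ?_⟩
          obtain ⟨q, hqp, hqm⟩ := Nat.exists_prime_and_dvd (show m ≠ 1 by omega)
          have h1 := hq q hqp (by rw [hnmp]; exact hqm.mul_right p)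
          have h2 : (q : ℝ) ≤ m := by exact_mod_cast Nat.le_of_dvd (by omega) hqm
          have h3 : X ^ (3 / 2 * δ) ≤ m := by
            calc X ^ (3 / 2 * δ) = (X ^ (3 / 4 : ℝ)) ^ (2 * δ) := by
                  rw [← Real.rpow_mul hX0.le]
                  congr 1
                  ring
              _ ≤ (n : ℝ) ^ (2 * δ) := Real.rpow_le_rpow (by positivity) hc.le (by positivity)
              _ ≤ m := h1.trans h2
          have h4 : (m : ℝ) * p ≤ X := by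
            have : (n : ℝ) = m * p := by exact_mod_cast hnmp
            rw [← this]
            exact hnX
          have h5 : X ^ (3 / 2 * δ) * p ≤ X ^ (3 / 2 * δ) * X ^ (1 - 3 / 2 * δ) := by
            rw [← Real.rpow_add hX0]
            have e1 : 3 / 2 * δ + (1 - 3 / 2 * δ) = 1 := by ring
            rw [e1, Real.rpow_one]
            exact (mul_le_mul_of_nonneg_right h3 (Nat.cast_nonneg _)).trans h4
          exact le_of_mul_le_mul_left h5 (by positivity)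
    refine ⟨(finite_toSet _).subset hsub, ?_⟩
    have h1 := Set.ncard_le_ncard hsub (finite_toSet _)
    rw [Set.ncard_coe_finset] at h1
    have h2 : (((Icc 1 ⌊X ^ (3 / 4 : ℝ)⌋₊ ∪ (Mf ×ˢ Icc 1 ⌊X ^ (1 - 3 / 2 * δ)⌋₊).image (fun u => u.1 * u.2)).card : ℕ) : ℝ) ≤
        X ^ (3 / 4 : ℝ) + C₀ * Real.log X * X ^ (1 - 3 / 2 * δ) := by
      have h3 := card_union_le (Icc 1 ⌊X ^ (3 / 4 : ℝ)⌋₊) ((Mf ×ˢ Icc 1 ⌊X ^ (1 - 3 / 2 * δ)⌋₊).image (fun u => u.1 * u.2))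
      have h4 : ((Mf ×ˢ Icc 1 ⌊X ^ (1 - 3 / 2 * δ)⌋₊).image (fun u => u.1 * u.2)).card ≤
          Mf.card * ⌊X ^ (1 - 3 / 2 * δ)⌋₊ := by
        refine card_image_le.trans ?_
        rw [card_product, Nat.card_Icc, Nat.add_sub_cancel]
      rw [Nat.card_Icc, Nat.add_sub_cancel] at h3
      have h5 : (((Icc 1 ⌊X ^ (3 / 4 : ℝ)⌋₊ ∪ (Mf ×ˢ Icc 1 ⌊X ^ (1 - 3 / 2 * δ)⌋₊).image (fun u => u.1 * u.2)).card : ℕ) : ℝ) ≤
          (⌊X ^ (3 / 4 : ℝ)⌋₊ : ℝ) + Mf.card * (⌊X ^ (1 - 3 / 2 * δ)⌋₊ : ℝ) := by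
        exact_mod_cast h3.trans (Nat.add_le_add_left h4 _)
      have h6 := Nat.floor_le (show 0 ≤ X ^ (3 / 4 : ℝ) by positivity)
      have h7 := Nat.floor_le (show 0 ≤ X ^ (1 - 3 / 2 * δ) by positivity)
      have h8 : (Mf.card : ℝ) * (⌊X ^ (1 - 3 / 2 * δ)⌋₊ : ℝ) ≤ C₀ * Real.log X * X ^ (1 - 3 / 2 * δ) :=
        mul_le_mul hMfc h7 (Nat.cast_nonneg _) (mul_nonneg hC₀.le (Real.log_nonneg hX))
      linarith
    have h3 : Real.log X ≤ 2 / δ * X ^ (δ / 2) := by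
      have := Real.log_le_rpow_div hX0.le (show 0 < δ / 2 by positivity)
      refine this.trans (le_of_eq ?_)
      field_simp
    have h4 : X ^ (3 / 4 : ℝ) ≤ X ^ (1 - δ) := Real.rpow_le_rpow_of_exponent_le hX (by linarith)
    calc _ ≤ X ^ (3 / 4 : ℝ) + C₀ * Real.log X * X ^ (1 - 3 / 2 * δ) := le_trans (by exact_mod_cast h1) h2
      _ ≤ X ^ (1 - δ) + C₀ * (2 / δ * X ^ (δ / 2)) * X ^ (1 - 3 / 2 * δ) := by
          have h5 : C₀ * Real.log X ≤ C₀ * (2 / δ * X ^ (δ / 2)) := mul_le_mul_of_nonneg_left h3 hC₀.le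
          have h6 := mul_le_mul_of_nonneg_right h5 (show 0 ≤ X ^ (1 - 3 / 2 * δ) by positivity)
          linarith
      _ = (1 + 2 * C₀ / δ) * X ^ (1 - δ) := by
          have : X ^ (δ / 2) * X ^ (1 - 3 / 2 * δ) = X ^ (1 - δ) := by
            rw [← Real.rpow_add hX0]
            congr 1
            ring
          calc X ^ (1 - δ) + C₀ * (2 / δ * X ^ (δ / 2)) * X ^ (1 - 3 / 2 * δ) =
                X ^ (1 - δ) + 2 * C₀ / δ * (X ^ (δ / 2) * X ^ (1 - 3 / 2 * δ)) := by ring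
            _ = _ := by rw [this]; ring
      _ ≤ _ := by
          apply mul_le_mul_of_nonneg_right _ (by positivity)
          linarith
  · -- no long gaps
    obtain ⟨N, hN⟩ : ∃ N : ℕ, x₀ ≤ N := exists_nat_ge x₀
    refine ⟨N, fun n hn => ?_⟩
    obtain ⟨x, hx⟩ : ∃ x : ℝ, x = n := ⟨_, rfl⟩
    have hxx₀ : x₀ ≤ x := by
      rw [hx]
      exact hN.trans (by exact_mod_cast hn)
    have hx16 : 16 ≤ x := hx₀.trans hxx₀
    have hx1 : 1 ≤ x := by linarith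
    have hx0 : 0 < x := by linarith
    have hlx : 0 < Real.log x := Real.log_pos (by linarith)
    obtain ⟨H, hH⟩ : ∃ H : ℝ, H = x ^ (1 / 2 - δ) := ⟨_, rfl⟩
    have hH0 : 0 < H := by rw [hH]; positivity
    have hHx : H ≤ x := by
      rw [hH]
      calc x ^ (1 / 2 - δ) ≤ x ^ (1 : ℝ) := Real.rpow_le_rpow_of_exponent_le hx1 (by linarith)
        _ = x := Real.rpow_one x
    have h1 := hM3 x H hxx₀ (by rw [hH]; exact Real.rpow_le_rpow_of_exponent_le hx1 (by linarith)) hHx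
    obtain ⟨m, hm, g1, g2, g3⟩ : {m ∈ M | Good δ₀ x H m}.Nonempty := by
      by_contra hcon
      rw [Set.not_nonempty_iff_eq_empty] at hcon
      rw [hcon, Set.ncard_empty, Nat.cast_zero] at h1
      have : 0 < δ₀ * Real.log x := by positivity
      linarith
    have hm2 := (hM1 m hm).1
    have hm0 : (0 : ℝ) < m := by exact_mod_cast (by omega : 0 < m)
    obtain ⟨p, hp, hp1, hp2⟩ : {p : ℕ | p.Prime ∧ x < m * p ∧ (m * p : ℝ) ≤ x + H}.Nonempty := by
      by_contra hcon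
      rw [Set.not_nonempty_iff_eq_empty] at hcon
      rw [hcon, Set.ncard_empty, Nat.cast_zero] at g3
      have : 0 < δ₀ * (H / m) / Real.log x := by positivity
      linarith
    have hb0 : (0 : ℝ) < m * p := by linarith
    have hbx2 : (m * p : ℝ) ≤ x ^ (2 : ℝ) := by
      rw [show (2 : ℝ) = ((2 : ℕ) : ℝ) by norm_num, Real.rpow_natCast]
      nlinarith
    have hmb : (m : ℝ) ≤ ((m * p : ℕ) : ℝ) ^ (1 / 2 - 2 * δ) := by
      push_cast
      calc (m : ℝ) ≤ x ^ (1 / 2 - 2 * δ₀) := g1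
        _ ≤ x ^ (1 / 2 - 2 * δ) := Real.rpow_le_rpow_of_exponent_le hx1 (by linarith)
        _ ≤ _ := Real.rpow_le_rpow hx0.le hp1.le (by linarith)
    refine ⟨m * p, Or.inr ⟨m, hm, p, hp, rfl, hmb, ?_⟩, ?_, ?_⟩
    · intro q hq hqd
      push_cast at hmb ⊢
      rcases (Nat.Prime.dvd_mul hq).1 hqd with h2 | h2
      · refine le_trans ?_ (g2 q hq h2)
        calc (m * p : ℝ) ^ (2 * δ) ≤ (x ^ (2 : ℝ)) ^ (2 * δ) := Real.rpow_le_rpow hb0.le hbx2 (by positivity)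
          _ = x ^ (2 * δ₀) := by
              rw [← Real.rpow_mul hx0.le]
              congr 1
              rw [hδ]
              ring
      · rw [(Nat.prime_dvd_prime_iff_eq hq hp).1 h2]
        have h3 : (m * p : ℝ) ^ (1 / 2 - 2 * δ) * (m * p : ℝ) ^ (2 * δ) ≤ (m * p : ℝ) ^ (1 / 2 - 2 * δ) * p := by
          calc (m * p : ℝ) ^ (1 / 2 - 2 * δ) * (m * p : ℝ) ^ (2 * δ) = (m * p : ℝ) ^ (1 / 2 : ℝ) := by
                rw [← Real.rpow_add hb0]
                congr 1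
                ring
            _ ≤ (m * p : ℝ) ^ (1 : ℝ) := Real.rpow_le_rpow_of_exponent_le (by linarith) (by norm_num)
            _ = m * p := Real.rpow_one _
            _ ≤ _ := mul_le_mul_of_nonneg_right hmb (Nat.cast_nonneg _)
        exact le_of_mul_le_mul_left h3 (by positivity)
    · have : (n : ℝ) < ((m * p : ℕ) : ℝ) := by
        push_cast
        rw [← hx]
        exact hp1
      exact_mod_cast this
    · push_cast
      rw [← hx]
      have h2 := Real.mul_self_sqrt hb0.le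
      have h3 := Real.mul_self_sqrt hx0.le
      have h4 : 0 < Real.sqrt x := Real.sqrt_pos.2 hx0
      have h5 : Real.sqrt x < Real.sqrt (m * p) := Real.sqrt_lt_sqrt hx0.le hp1
      have h6 : (Real.sqrt (m * p) - Real.sqrt x) * (Real.sqrt (m * p) + Real.sqrt x) ≤ x ^ (1 / 2 - δ) := by
        have : (Real.sqrt (m * p) - Real.sqrt x) * (Real.sqrt (m * p) + Real.sqrt x) = m * p - x := by
          linear_combination h2 - h3
        rw [this, ← hH]
        linarith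
      have h7 : x ^ (1 / 2 - δ) = x ^ (-δ) * Real.sqrt x := by
        rw [Real.sqrt_eq_rpow, ← Real.rpow_add hx0]
        congr 1
        ring
      have h8 : (Real.sqrt (m * p) - Real.sqrt x) * Real.sqrt x < x ^ (-δ) * Real.sqrt x := by
        rw [← h7]
        nlinarith
      exact lt_of_mul_lt_mul_right h8 h4.le

end Pool.Agent.Results.MP_3998cf_nt.OneThinSetOfMultipliers
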