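import Pool.Agent.Q106.GMM.Fin
import Pool.Agent.Q120.GM.Exists

/-!
# Power sums of the differences of square roots in the sieved models of the primes

`Q` is the level: the random set contains each `n` coprime to `Q` independently with
probability `min(1, (Q/φ(Q))/log n)`, and no other `n`. For `Q = 1` this is the model of Cramér.
`a_0 < a_1 < ...` are the elements of the random set.

Almost surely, for all real exponents at once, the moments of the gaps `a_(n+1) - a_n` and the sums of the powers of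
the differences `a_(n+1)^α - a_n^α`, `0 < α < 1` (`α = 1/2` in the question) have exact asymptotics.
-/

set_option autoImplicit false

namespace Pool.Agent.Results.MP_3998cf_nt.PowerSumsInTheModels

open MeasureTheory Filter Pool.Agent.Q120.GM Finset
open scoped Topology

/-- `a_n`, the `n`-th element of `S`, in increasing order, starting with `n = 0`. -/
noncomputable def a (S : Set ℕ) (n : ℕ) : ℝ := (Nat.nth (· ∈ S) n : ℝ)

/-- The law of the power sums. -/
structure Law (S : Set ℕ) : Prop where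
  infinite : S.Infinite
  moments : ∀ s : ℝ, 0 < s → Tendsto (fun N : ℕ => (∑ n ∈ range N, (a S (n + 1) - a S n) ^ s) / (N * Real.log N ^ s))
    atTop (𝓝 (Real.Gamma (s + 1)))
  below : ∀ α s : ℝ, 0 < α → α < 1 → 0 < s → (1 - α) * s < 1 →
    Tendsto (fun N : ℕ => (∑ n ∈ range N, (a S (n + 1) ^ α - a S n ^ α) ^ s) /
      ((N : ℝ) ^ (1 - (1 - α) * s) * Real.log N ^ (α * s))) atTop (𝓝 (α ^ s * Real.Gamma (s + 1) / (1 - (1 - α) * s)))
  critical : ∀ α s : ℝ, 0 < α → α < 1 → 0 < s → (1 - α) * s = 1 →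
    Tendsto (fun N : ℕ => (∑ n ∈ range N, (a S (n + 1) ^ α - a S n ^ α) ^ s) / Real.log N ^ s) atTop
      (𝓝 (α ^ s * Real.Gamma (s + 1) / s))
  above : ∀ α s : ℝ, 0 < α → α < 1 → 0 < s → 1 < (1 - α) * s →
    Summable (fun n : ℕ => (a S (n + 1) ^ α - a S n ^ α) ^ s)

theorem law {Ω : Type*} [MeasurableSpace Ω] {μ : Measure Ω} [IsProbabilityMeasure μ] {A : Ω → Set ℕ} {Q : ℕ}
    (hA : IsModel μ (level Q) A) (hQ : 1 ≤ Q) : ∀ᵐ ω ∂μ, Law (A ω) := by
  filter_upwards [Pool.Agent.Q106.GMM.ae_typ hA hQ] with ω h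
  refine ⟨h.inf, fun s hs => h.mom hQ hs, fun α s h1 h2 h3 h4 => ?_, fun α s h1 h2 h3 h4 => ?_, fun α s h1 h2 h3 h4 => ?_⟩
  · have h5 : 0 < 1 - (1 - α) * s := by linarith
    have h6 := h.sum_div hQ h1 h2 h3 (r := 1 - (1 - α) * s) (q := s - (1 - α) * s) (Or.inl h5)
      (c := 1 / (1 - (1 - α) * s)) (by positivity) (h.V_lt hQ h4)
    rw [mul_one_div] at h6
    refine h6.congr (fun N => ?_)
    unfold Pool.Agent.Q106.GMM.UU Pool.Agent.Q106.GMM.dif
    rw [show s - (1 - α) * s = α * s by ring]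
    rfl
  · have h6 := h.sum_div hQ h1 h2 h3 (r := 0) (q := s) (Or.inr ⟨rfl, h3⟩) (c := 1 / s) (by positivity)
      (by rw [h4]; exact h.V_eq hQ h3)
    rw [mul_one_div] at h6
    refine h6.congr (fun N => ?_)
    unfold Pool.Agent.Q106.GMM.UU Pool.Agent.Q106.GMM.dif
    rw [Real.rpow_zero, one_mul]
    rfl
  · exact h.sum_conv hQ h1 h2 h3 h4

/-- **All power sums of the differences of powers of consecutive elements.** -/
theorem result : (∀ Q : ℕ, IsModel (prodMeasure (level Q)) (level Q) (trueSet (ι := ℕ))) ∧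
    ∀ (Ω : Type) (_ : MeasurableSpace Ω) (μ : Measure Ω) (_ : IsProbabilityMeasure μ) (A : Ω → Set ℕ) (Q : ℕ),
      1 ≤ Q → IsModel μ (level Q) A → ∀ᵐ ω ∂μ, Law (A ω) := by
  refine ⟨fun Q => isModel (level Q) (level_nonneg Q) (level_le_one Q), ?_⟩
  intro Ω _ μ _ A Q hQ hA
  exact law hA hQ

end Pool.Agent.Results.MP_3998cf_nt.PowerSumsInTheModels
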