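import Mathlib
import Pool.Agent.Q197.PD.Inf

set_option autoImplicit false

/-!
# Power sums of the differences of powers of consecutive elements: the exact entropy threshold

We consider arbitrary random sets `A` of integers whose law on the dyadic block `[2 ^ k, 2 ^ (k + 1))` has
relative entropy at most `d k` (nats) with respect to Cramér's model (`AllModels d`, `SomeModel d`).
-/

namespace Pool.Agent.Results.MP_3998cf_nt.PowerSumsThreshold

open Finset MeasureTheory Filter Pool.Agent.Q120.ET Pool.Agent.Q120.SP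

/-- The element number `n` of `S`, in increasing order, `n = 0, 1, …`. -/
noncomputable def elt (S : Set ℕ) (n : ℕ) : ℕ := Nat.nth (fun a => a ∈ S) n

/-- The differences of the `α`-th powers of consecutive elements. -/
noncomputable def diff (S : Set ℕ) (α : ℝ) (n : ℕ) : ℝ := (elt S (n + 1) : ℝ) ^ α - (elt S n : ℝ) ^ α

/-- `S` is infinite, the differences tend to `0`, their power sums converge for all exponents `s > 1 / (1 - α)`, and the
sum of the powers with the exponent `s = 1 / (1 - α)` of the first `N` differences is at most a constant times `log ^ s N`. -/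
def AllSums (S : Set ℕ) (α : ℝ) : Prop :=
  S.Infinite ∧ Tendsto (diff S α) atTop (nhds 0) ∧
    (∀ s : ℝ, 1 / (1 - α) < s → Summable fun n => diff S α n ^ s) ∧
    (fun N : ℕ => ∑ n ∈ range N, diff S α n ^ (1 / (1 - α))) =O[atTop] fun N : ℕ => Real.log N ^ (1 / (1 - α))

/-- `S` is infinite, and some power sum of the differences converges. -/
def SomeSum (S : Set ℕ) (α : ℝ) : Prop :=
  S.Infinite ∧ ∃ s : ℝ, 0 < s ∧ Summable fun n => diff S α n ^ s

theorem tendsto_of_summable {S : Set ℕ} (hS : S.Infinite) {α s : ℝ} (hα : 0 < α) (hs : 0 < s)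
    (h : Summable fun n => diff S α n ^ s) : Tendsto (diff S α) atTop (nhds 0) := by
  have h1 := h.tendsto_atTop_zero
  have h2 : Tendsto (fun n => (diff S α n ^ s) ^ (1 / s)) atTop (nhds ((0 : ℝ) ^ (1 / s))) :=
    h1.rpow_const (Or.inr (by positivity))
  rw [Real.zero_rpow (by positivity)] at h2
  refine h2.congr fun n => ?_
  have h3 : 0 ≤ diff S α n := Pool.Agent.Q197.PD.dif_nonneg hS hα.le n
  rw [← Real.rpow_mul h3, mul_one_div_cancel hs.ne', Real.rpow_one]

/-- For `1 / 2 ≤ α < 1` and all budgets `d k ≥ 0`: the sum `∑ d k * k / 2 ^ ((1 - α) k)` is finite if and only if for all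
random sets with relative entropies at most `d k` the differences almost surely satisfy `AllSums`, or are almost surely
eventually less than `1`, or are almost surely bounded, or have almost surely a convergent power sum. Otherwise some such
set has almost surely unbounded differences. -/
theorem result (d : ℕ → ℝ) (hd : ∀ k, 0 ≤ d k) (α : ℝ) (h0 : 1 / 2 ≤ α) (h1 : α < 1) :
    List.TFAE [Summable fun k : ℕ => d k * k / (2 : ℝ) ^ ((1 - α) * k), AllModels d (fun S => AllSums S α),
      AllModels d (fun S => S.Infinite ∧ ∀ᶠ n in atTop, diff S α n < 1),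
      AllModels d (fun S => S.Infinite ∧ BddAbove (Set.range (diff S α))), AllModels d (fun S => SomeSum S α)] ∧
    ((¬ Summable fun k : ℕ => d k * k / (2 : ℝ) ^ ((1 - α) * k)) →
      SomeModel d (fun S => S.Infinite ∧ (∀ s : ℝ, 0 < s → ¬ Summable fun n => diff S α n ^ s) ∧
        ¬ BddAbove (Set.range (diff S α)))) := by
  obtain ⟨β, hβ⟩ : ∃ β : ℝ, β = 1 - α := ⟨_, rfl⟩
  have hα : α = 1 - β := by linarith
  have hβ0 : 0 < β := by linarith
  have hβ1 : β ≤ 1 / 2 := by linarith
  subst hα
  have e : 1 - (1 - β) = β := by ring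
  rw [e]
  have hconv : ((¬ Summable fun k : ℕ => d k * k / (2 : ℝ) ^ (β * k)) →
      SomeModel d (fun S => S.Infinite ∧ (∀ s : ℝ, 0 < s → ¬ Summable fun n => diff S (1 - β) n ^ s) ∧
        ¬ BddAbove (Set.range (diff S (1 - β))))) := fun hns =>
    SomeModel.mono (Pool.Agent.Q197.PD.someModel_unbdd hd hβ0 hβ1 hns) fun S hS =>
      ⟨hS.1, fun s hs hsum => hS.2 (Pool.Agent.Q197.PD.bdd_of_summable hS.1 (by linarith) hs hsum),
        fun hb => hS.2 (Pool.Agent.Q197.PD.bdd_of_bddAbove hS.1 (by linarith) hb)⟩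
  refine ⟨?_, hconv⟩
  tfae_have 1 → 2 := by
    intro hs Ω _ μ _ A hA hdd
    filter_upwards [Pool.Agent.Q197.PD.ae_good hA hβ0 hβ1 hs hdd] with ω hω
    have h2 : ∀ s : ℝ, 1 / β < s → Summable fun n => diff (A ω) (1 - β) n ^ s := fun s hs' =>
      hω.conv hβ0 hβ1 hs'
    refine ⟨hω.inf, ?_, fun s hs' => ?_, ?_⟩
    · have h3 : (0 : ℝ) < 1 / β := by positivity
      exact tendsto_of_summable hω.inf (by linarith) (show (0 : ℝ) < 1 / β + 1 by linarith) (h2 _ (by linarith))
    · rw [e] at hs'
      exact h2 s hs'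
    · rw [e]
      exact hω.crit hβ0 hβ1
  tfae_have 2 → 3 := by
    intro h Ω _ μ _ A hA hdd
    filter_upwards [h Ω μ A hA hdd] with ω hω
    exact ⟨hω.1, hω.2.1.eventually (gt_mem_nhds one_pos)⟩
  tfae_have 3 → 4 := by
    intro h Ω _ μ _ A hA hdd
    filter_upwards [h Ω μ A hA hdd] with ω hω
    refine ⟨hω.1, ?_⟩
    obtain ⟨n0, hn0⟩ := eventually_atTop.1 hω.2
    refine ⟨1 + ∑ n ∈ range n0, |diff (A ω) (1 - β) n|, ?_⟩
    rintro _ ⟨n, rfl⟩
    rcases le_or_gt n0 n with hn | hn
    · have h3 := hn0 n hn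
      have h4 : 0 ≤ ∑ n ∈ range n0, |diff (A ω) (1 - β) n| := sum_nonneg fun _ _ => abs_nonneg _
      linarith
    · have h3 := single_le_sum (f := fun n => |diff (A ω) (1 - β) n|) (fun _ _ => abs_nonneg _)
        (mem_range.2 hn)
      have h4 := le_abs_self (diff (A ω) (1 - β) n)
      linarith
  tfae_have 4 → 1 := by
    intro h
    by_contra hns
    exact not_allModels_of (hconv hns) (fun S hS hS2 => hS.2.2 hS2.2) h
  tfae_have 2 → 5 := by
    intro h Ω _ μ _ A hA hdd
    filter_upwards [h Ω μ A hA hdd] with ω hω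
    refine ⟨hω.1, 1 / (1 - (1 - β)) + 1, ?_, hω.2.2.1 _ (by linarith)⟩
    rw [e]
    positivity
  tfae_have 5 → 1 := by
    intro h
    by_contra hns
    refine not_allModels_of (hconv hns) (fun S hS hS2 => ?_) h
    obtain ⟨s, hs, hsum⟩ := hS2.2
    exact hS.2.1 s hs hsum
  tfae_finish

end Pool.Agent.Results.MP_3998cf_nt.PowerSumsThreshold
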