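import Pool.Agent.Q120.TY.Pow
import Pool.Agent.Q120.TY.Tfae
import Pool.Agent.Q120.TY.Trans

set_option autoImplicit false

/-!
# Differences of powers of consecutive primes along typical multiples and translates

For `θ > 0` (Q1: `θ = 1/2`) let `r y` be the distance from `y` to the next `q^θ`, `q` prime, and `D` the upper limit of
`p_(k+1)^θ - p_k^θ`. Let `w n → ∞` have bounded steps (`w n = n` for instance). For almost every `α > 0` and for all `α > 0`
outside a meagre set the limit points of `r (α w n)` are exactly the numbers of `[0, D]`; hence `D = 0` is decided by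
each non-null and each non-meagre set of multipliers `α`, and by almost all translates of the natural numbers.
-/

namespace Pool.Agent.Results.MP_3998cf_nt.TypicalMultipliers

open MeasureTheory Filter Topology Set
open scoped ENNReal

/-- the primes in increasing order, `p 0 = 2` -/
noncomputable def p (k : ℕ) : ℝ := (Nat.nth Nat.Prime k : ℝ)

/-- the least prime above the real number `x` -/
noncomputable def nextPrime (x : ℝ) : ℕ := sInf {q : ℕ | q.Prime ∧ x < q}

/-- the distance from `y` to the next `q^θ`, `q` prime -/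
noncomputable def r (θ y : ℝ) : ℝ := (nextPrime (y ^ (1 / θ)) : ℝ) ^ θ - y

/-- the upper limit of the differences, in `[0, ∞]` -/
noncomputable def D (θ : ℝ) : ℝ≥0∞ := limsup (fun k => ENNReal.ofReal (p (k + 1) ^ θ - p k ^ θ)) atTop

/-- the limit points of the sequence `r θ (α w n)`, `n = 0, 1, 2, ...` -/
def LimitPoints (θ : ℝ) (w : ℕ → ℝ) (α : ℝ) : Set ℝ := {c | MapClusterPt c atTop (fun n : ℕ => r θ (α * w n))}

/-- the real numbers of `[0, D θ]` -/
def Interval (θ : ℝ) : Set ℝ := {c | 0 ≤ c ∧ ENNReal.ofReal c ≤ D θ}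

/-- `r θ (α w n) → 0` -/
def Null (θ : ℝ) (w : ℕ → ℝ) (α : ℝ) : Prop := Tendsto (fun n : ℕ => r θ (α * w n)) atTop (𝓝 0)

/-- the sequence tends to infinity with bounded steps -/
def Steps (w : ℕ → ℝ) : Prop := Tendsto w atTop atTop ∧ ∃ C : ℝ, ∀ n, w (n + 1) - w n ≤ C

/-- the assertion of Q1 -/
def Q1 : Prop := Tendsto (fun k => √(p (k + 1)) - √(p k)) atTop (𝓝 0)

lemma scale {w : ℕ → ℝ} (h : Steps w) : Q120.TY.Scale w (fun _ => (1 : ℝ)) where
  pos := Eventually.of_forall fun _ => one_pos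
  small := Q120.TY.scale_one.small
  lim := h.1
  step := by
    intro A _
    obtain ⟨C, hC⟩ := h.2
    refine ⟨max C 1, lt_max_of_lt_right one_pos, Eventually.of_forall fun y n _ _ => ?_⟩
    rw [mul_one]
    exact (hC n).trans (le_max_left _ _)

theorem result :
    (∀ θ : ℝ, 0 < θ → ∀ w : ℕ → ℝ, Steps w →
      (∀ α : ℝ, 0 < α → LimitPoints θ w α ⊆ Interval θ) ∧
      (∀ᵐ α : ℝ, 0 < α → LimitPoints θ w α = Interval θ) ∧
      IsMeagre {α : ℝ | 0 < α ∧ ¬ LimitPoints θ w α = Interval θ} ∧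
      [Tendsto (fun k => p (k + 1) ^ θ - p k ^ θ) atTop (𝓝 0),
        ∀ α : ℝ, 0 < α → Null θ w α,
        ∀ᵐ α : ℝ, 0 < α → Null θ w α,
        volume {α : ℝ | 0 < α ∧ Null θ w α} ≠ 0,
        ¬ IsMeagre {α : ℝ | 0 < α ∧ Null θ w α},
        ∀ᵐ t : ℝ, Tendsto (fun n : ℕ => r θ (t + n)) atTop (𝓝 0)].TFAE) ∧
    (∀ θ : ℝ, 0 < θ → ∀ c L : ℝ, 0 ≤ c → 0 < L → L ≤ 1 → ENNReal.ofReal (c + L) < D θ →
      ENNReal.ofReal L ≤ volume {t : ℝ | t ∈ Icc (0 : ℝ) 1 ∧ ∃ᶠ n : ℕ in atTop, c < r θ (t + n)}) ∧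
    (Q1 ↔ Tendsto (fun k => p (k + 1) ^ (1 / 2 : ℝ) - p k ^ (1 / 2 : ℝ)) atTop (𝓝 0)) := by
  have hD : ∀ θ : ℝ, Q120.TY.D (Q120.TY.sp θ) (fun _ => 1) = D θ := by
    intro θ
    unfold Q120.TY.D D
    simp only [div_one]
    rfl
  refine ⟨fun θ hθ w hw => ?_, fun θ hθ c L hc hL0 hL1 hcL => ?_, ?_⟩
  · have hs := Q120.TY.sp_strictMono hθ
    have hlim := Q120.TY.sp_tendsto hθ
    have hr := Q120.TY.rp_eq hθ
    have hnn : ∀ᶠ k in atTop, 0 ≤ (Q120.TY.sp θ (k + 1) - Q120.TY.sp θ k) / (fun _ => (1 : ℝ)) (Q120.TY.sp θ k) := by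
      refine Eventually.of_forall fun k => ?_
      have := hs (Nat.lt_succ_self k)
      simp only [div_one]
      linarith
    have h0 := Q120.TY.D_zero_iff (f := fun _ => (1 : ℝ)) (s := Q120.TY.sp θ) hnn
    simp only [div_one] at h0
    obtain ⟨h1, h2, h3⟩ := Q120.TY.limit_points (scale hw) Q120.TY.slow_one hlim hr (Q120.TY.rp_nonneg hθ)
    rw [hD] at h1 h2 h3
    have h4 := Q120.TY.tfae_zero (scale hw) Q120.TY.slow_one hlim hr
    have h5 := Q120.TY.zero_all (scale hw) Q120.TY.slow_one hlim hr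
    refine ⟨h1, h2, h3, ?_⟩
    have h6 : Tendsto (fun k => p (k + 1) ^ θ - p k ^ θ) atTop (𝓝 0) ↔ Q120.TY.D (Q120.TY.sp θ) (fun _ => 1) = 0 :=
      h0.symm
    tfae_have 1 → 2 := fun h => (h4.out 0 1).1 (h6.1 h)
    tfae_have 2 → 3 := fun h => Eventually.of_forall h
    tfae_have 3 → 4 := fun h => (h4.out 2 3).1 h
    tfae_have 4 → 5 := fun h => (h4.out 3 4).1 h
    tfae_have 5 → 6 := by
      intro h
      refine Eventually.of_forall fun t => (h5 ((h4.out 0 4).2 h)).comp ?_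
      exact tendsto_atTop_add_const_left _ t tendsto_natCast_atTop_atTop
    tfae_have 6 → 1 := fun h => h6.2 (Q120.TY.translates_zero hlim hr h)
    tfae_finish
  · rw [← hD] at hcL
    exact Q120.TY.translates (Q120.TY.sp_tendsto hθ) (Q120.TY.rp_eq hθ) hc hL0 hL1 hcL
  · unfold Q1
    simp only [Real.sqrt_eq_rpow]

end Pool.Agent.Results.MP_3998cf_nt.TypicalMultipliers
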